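import Pool.Agent.Helper17.RZ.St4

/-!
# Project RZ (MP_77656e_ag), module RZ-D0: homogeneous numerators, intersection of localisations
-/

set_option autoImplicit false

open MvPolynomial

namespace Pool.Agent.Helper5.RZ

open Pool.Agent.Helper17.RZ

universe u

noncomputable section

theorem hom_factor {k : Type u} [Field k] {g q : SS k} {D e2 : Fin 4 → ℕ} (hg : g ≠ 0)
    (hq : q ≠ 0) (hqe : IsWeightedHomogeneous wt q e2)
    (hD : IsWeightedHomogeneous wt (g * q) D) :
    ∃ f : Fin 4 → ℕ, f + e2 = D ∧ IsWeightedHomogeneous wt g f := by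
  classical
  have hqm : q ∈ weightedHomogeneousSubmodule k (wt : Fin 4 × Bool → (Fin 4 → ℕ)) e2 := hqe
  have hDm : g * q ∈ weightedHomogeneousSubmodule k (wt : Fin 4 × Bool → (Fin 4 → ℕ)) D := hD
  let := weightedGradedAlgebra k (wt : Fin 4 × Bool → (Fin 4 → ℕ))
  have key : ∀ n : Fin 4 → ℕ, n + e2 ≠ D →
      (DirectSum.decompose (weightedHomogeneousSubmodule k (wt : Fin 4 × Bool → (Fin 4 → ℕ))) g n :
        SS k) = 0 := by
    intro n hn
    have h1 := DirectSum.coe_decompose_mul_add_of_right_mem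
      (weightedHomogeneousSubmodule k (wt : Fin 4 × Bool → (Fin 4 → ℕ))) (a := g) (i := n) hqm
    rw [DirectSum.decompose_of_mem_ne _ hDm (Ne.symm hn)] at h1
    exact (mul_eq_zero.mp h1.symm).resolve_right hq
  have hex : ∃ n : Fin 4 → ℕ, (DirectSum.decompose
      (weightedHomogeneousSubmodule k (wt : Fin 4 × Bool → (Fin 4 → ℕ))) g n : SS k) ≠ 0 := by
    by_contra hcon
    push Not at hcon
    apply hg
    rw [← DirectSum.sum_support_decompose
      (weightedHomogeneousSubmodule k (wt : Fin 4 × Bool → (Fin 4 → ℕ))) g]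
    exact Finset.sum_eq_zero fun n _ => hcon n
  obtain ⟨n, hn⟩ := hex
  have hnD : n + e2 = D := by
    by_contra h
    exact hn (key n h)
  refine ⟨n, hnD, ?_⟩
  have hgn : g = (DirectSum.decompose
      (weightedHomogeneousSubmodule k (wt : Fin 4 × Bool → (Fin 4 → ℕ))) g n : SS k) := by
    conv_lhs => rw [← DirectSum.sum_support_decompose
      (weightedHomogeneousSubmodule k (wt : Fin 4 × Bool → (Fin 4 → ℕ))) g]
    refine Finset.sum_eq_single n (fun m _ hm => key m ?_) (fun h => ?_)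
    · intro h
      exact hm (add_right_cancel (h.trans hnD.symm))
    · simpa using h
  have hmem := (DirectSum.decompose
      (weightedHomogeneousSubmodule k (wt : Fin 4 × Bool → (Fin 4 → ℕ))) g n).2
  rw [← hgn] at hmem
  exact hmem

theorem al_inj {k : Type u} [Field k] {a b : SS k}
    (h : algebraMap (SS k) (LL k) a = algebraMap (SS k) (LL k) b) : a = b :=
  IsFractionRing.injective (SS k) (LL k) h

theorem homNum : HomNum.{u} := by
  intro k _ h e hh hhe d x hx hxD M
  obtain ⟨N0, g0, hg0⟩ := hxD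
  by_cases hx0 : x = 0
  · refine ⟨M, 0, 0, le_rfl, isWeightedHomogeneous_zero k wt _, Or.inl hx0, ?_⟩
    rw [hx0, zero_mul]
    exact (map_zero _).symm
  obtain ⟨p, q, e1, e2, hq, hp1, hq1, hd, hxpq⟩ := hx
  have hqn : algebraMap (SS k) (LL k) q ≠ 0 :=
    (map_ne_zero_iff _ (IsFractionRing.injective (SS k) (LL k))).mpr hq
  have hhn : algebraMap (SS k) (LL k) h ≠ 0 :=
    (map_ne_zero_iff _ (IsFractionRing.injective (SS k) (LL k))).mpr hh
  have hg1 : x * algebraMap (SS k) (LL k) h ^ (N0 + M) =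
      algebraMap (SS k) (LL k) (g0 * h ^ M) := by
    rw [map_mul, ← hg0, map_pow, pow_add, mul_assoc]
  have hprod : (g0 * h ^ M) * q = p * h ^ (N0 + M) := by
    apply al_inj
    rw [map_mul, ← hg1, map_mul, map_pow, hxpq]
    field_simp
  have hg1n : g0 * h ^ M ≠ 0 := by
    intro h0
    rw [h0, map_zero] at hg1
    rcases mul_eq_zero.mp hg1 with h1 | h1
    · exact hx0 h1
    · exact pow_ne_zero _ hhn h1
  have hDh : IsWeightedHomogeneous wt ((g0 * h ^ M) * q) (e1 + (N0 + M) • e) := by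
    rw [hprod]
    exact hp1.mul (hhe.pow _)
  obtain ⟨f, hf, hgf⟩ := hom_factor hg1n hq hq1 hDh
  refine ⟨N0 + M, g0 * h ^ M, f, by omega, hgf, Or.inr fun s => ?_, hg1⟩
  have h1 := congrFun hf s
  simp only [Pi.add_apply, Pi.smul_apply, smul_eq_mul] at h1
  have h2 := hd s
  zify at h1
  push_cast at h1 ⊢
  linarith

theorem dnInter : DnInter.{u} := by
  intro k _ h p q hh hp hq hpq x hx
  obtain ⟨⟨N, g1, hg1⟩, ⟨M, g2, hg2⟩⟩ := hx
  have hpn : algebraMap (SS k) (LL k) p ≠ 0 :=
    (map_ne_zero_iff _ (IsFractionRing.injective (SS k) (LL k))).mpr hp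
  have h1 : x * algebraMap (SS k) (LL k) h ^ (N + M) * algebraMap (SS k) (LL k) p ^ (N + M) =
      algebraMap (SS k) (LL k) (g1 * (h * p) ^ M) := by
    rw [map_mul, ← hg1, map_pow, map_mul]
    ring
  have h2 : x * algebraMap (SS k) (LL k) h ^ (N + M) * algebraMap (SS k) (LL k) q ^ (N + M) =
      algebraMap (SS k) (LL k) (g2 * (h * q) ^ N) := by
    rw [map_mul, ← hg2, map_pow, map_mul]
    ring
  have h3 : (g1 * (h * p) ^ M) * q ^ (N + M) = (g2 * (h * q) ^ N) * p ^ (N + M) := by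
    apply al_inj
    rw [map_mul, ← h1, map_mul, ← h2, map_pow, map_pow]
    ring
  have h4 : p ^ (N + M) ∣ g1 * (h * p) ^ M := by
    have hrel : IsRelPrime (p ^ (N + M)) (q ^ (N + M)) := hpq.pow
    exact hrel.dvd_of_dvd_mul_right (Dvd.intro_left _ h3.symm)
  obtain ⟨c, hc⟩ := h4
  refine ⟨N + M, c, ?_⟩
  have hpn2 : algebraMap (SS k) (LL k) p ^ (N + M) ≠ 0 := pow_ne_zero _ hpn
  apply mul_right_cancel₀ hpn2
  rw [h1, hc, map_mul, map_pow]
  ring

end

end Pool.Agent.Helper5.RZ
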